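import Mathlib

set_option autoImplicit false

/-!
# The Bernoulli kernel `1 - 6 θ (1 - θ)`

Its Fourier series, and the corresponding quadratic form of a sequence of weights, which is the variance of the
distribution function minus the identity.
-/

namespace Pool.Agent.L7h2.SQ

open Finset

/-- the Fourier coefficients of `1 - 6 θ (1 - θ)` -/
noncomputable def cf (j : ℕ) : ℝ := 6 / Real.pi ^ 2 * (1 / (j : ℝ) ^ 2)

lemma cf_nonneg (j : ℕ) : 0 ≤ cf j := by unfold cf; positivity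

lemma bern_hasSum {θ : ℝ} (hθ : θ ∈ Set.Icc (0 : ℝ) 1) :
    HasSum (fun j : ℕ => cf j * Real.cos (2 * Real.pi * j * θ)) (1 - 6 * θ * (1 - θ)) := by
  have h := hasSum_one_div_nat_pow_mul_cos (k := 1) one_ne_zero hθ
  have h2 := h.mul_left (6 / Real.pi ^ 2)
  have e1 : (6 / Real.pi ^ 2 * ((-1 : ℝ) ^ (1 + 1) * (2 * Real.pi) ^ (2 * 1) / 2 / ((2 * 1).factorial : ℝ) *
      (Polynomial.map (algebraMap ℚ ℝ) (Polynomial.bernoulli (2 * 1))).eval θ)) = 1 - 6 * θ * (1 - θ) := by
    have hp : (Polynomial.map (algebraMap ℚ ℝ) (Polynomial.bernoulli (2 * 1))).eval θ = θ ^ 2 - θ + 1 / 6 := by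
      rw [Polynomial.bernoulli]
      simp only [sum_range_succ, sum_range_zero, Polynomial.eval_map]
      norm_num [Polynomial.eval₂_add, bernoulli_one, bernoulli_zero, bernoulli_two]
      ring
    rw [hp]
    have hpi : Real.pi ≠ 0 := Real.pi_ne_zero
    norm_num [Nat.factorial]
    field_simp
    ring
  rw [e1] at h2
  apply h2.congr_fun
  intro j
  unfold cf
  ring

/-- the partial sums approximate the kernel from below, uniformly -/
lemma bern_trunc {δ : ℝ} (hδ : 0 < δ) : ∃ J : ℕ, ∀ θ ∈ Set.Icc (0 : ℝ) 1,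
    1 - 6 * θ * (1 - θ) ≤ ∑ j ∈ range (J + 1), cf j * Real.cos (2 * Real.pi * j * θ) + δ := by
  have h0 : HasSum cf 1 := by
    have h := bern_hasSum (θ := 0) ⟨le_rfl, zero_le_one⟩
    simpa using h
  have h1 : ∀ᶠ J : ℕ in Filter.atTop, 1 - δ < ∑ j ∈ range J, cf j :=
    h0.tendsto_sum_nat.eventually (lt_mem_nhds (by linarith))
  obtain ⟨J, hJ⟩ := Filter.eventually_atTop.1 h1
  refine ⟨J, fun θ hθ => ?_⟩
  have h2 := h0.sub (bern_hasSum hθ)
  have h3 : ∑ j ∈ range (J + 1), (cf j - cf j * Real.cos (2 * Real.pi * j * θ)) ≤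
      1 - (1 - 6 * θ * (1 - θ)) := by
    apply sum_le_hasSum _ _ h2
    intro j _
    have := Real.cos_le_one (2 * Real.pi * j * θ)
    nlinarith [cf_nonneg j]
  rw [sum_sub_distrib] at h3
  have h4 := hJ (J + 1) (by omega)
  linarith

lemma cf_sum_le (J : ℕ) : ∑ j ∈ range (J + 1), cf j ≤ 1 := by
  have h0 : HasSum cf 1 := by
    have h := bern_hasSum (θ := 0) ⟨le_rfl, zero_le_one⟩
    simpa using h
  exact sum_le_hasSum _ (fun j _ => cf_nonneg j) h0

/-- the absolute value of an exponential sum -/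
lemma norm_exp_sum (s : Finset ℕ) (x : ℕ → ℝ) (θ : ℝ) :
    ‖∑ i ∈ s, (x i : ℂ) * Complex.exp (Complex.I * (θ : ℂ)) ^ i‖ ^ 2 =
      ∑ i ∈ s, ∑ k ∈ s, x i * x k * Real.cos (θ * i - θ * k) := by
  have h1 : ∑ i ∈ s, (x i : ℂ) * Complex.exp (Complex.I * (θ : ℂ)) ^ i =
      ((∑ i ∈ s, x i * Real.cos (θ * i) : ℝ) : ℂ) + ((∑ i ∈ s, x i * Real.sin (θ * i) : ℝ) : ℂ) * Complex.I := by
    push_cast
    rw [sum_mul, ← sum_add_distrib]
    apply sum_congr rfl
    intro i _
    rw [← Complex.exp_nat_mul, show (i : ℂ) * (Complex.I * θ) = ((θ * i : ℝ) : ℂ) * Complex.I by push_cast; ring,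
      Complex.exp_mul_I]
    push_cast
    ring
  rw [h1, Complex.sq_norm, Complex.normSq_add_mul_I, sq, sq, sum_mul_sum, sum_mul_sum, ← sum_add_distrib]
  apply sum_congr rfl
  intro i _
  rw [← sum_add_distrib]
  apply sum_congr rfl
  intro k _
  rw [Real.cos_sub]
  ring

/-! ### the quadratic form -/

lemma sum_id (n : ℕ) : ∑ u ∈ range n, (u : ℝ) = n * (n - 1) / 2 := by
  induction n with
  | zero => simp
  | succ n ih => rw [sum_range_succ, ih]; push_cast; ring

lemma sum_sq' (n : ℕ) : ∑ u ∈ range n, (u : ℝ) ^ 2 = (n - 1) * n * (2 * n - 1) / 6 := by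
  induction n with
  | zero => simp
  | succ n ih => rw [sum_range_succ, ih]; push_cast; ring

lemma sum_ge {n i : ℕ} (hi : i ≤ n) (f : ℕ → ℝ) :
    ∑ u ∈ range n, (if i ≤ u then f u else 0) = ∑ u ∈ range n, f u - ∑ u ∈ range i, f u := by
  induction n, hi using Nat.le_induction with
  | base =>
    rw [sub_self]
    apply sum_eq_zero
    intro u hu
    rw [if_neg (by have := mem_range.1 hu; omega)]
  | succ n hn ih => rw [sum_range_succ, ih, sum_range_succ, if_pos hn]; ring

/-- the kernel -/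
lemma kernel_eq {n : ℕ} (hn : 0 < n) {i k : ℕ} (hi : i ≤ n) (hk : k ≤ n) (hik : i ≤ k) :
    12 * ((1 / n) * ∑ u ∈ range n, ((if i ≤ u then 1 else 0) - (u : ℝ) / n) * ((if k ≤ u then 1 else 0) - (u : ℝ) / n) -
      ((1 / n) * ∑ u ∈ range n, ((if i ≤ u then 1 else 0) - (u : ℝ) / n)) *
      ((1 / n) * ∑ u ∈ range n, ((if k ≤ u then 1 else 0) - (u : ℝ) / n))) + 1 / (n : ℝ) ^ 2 =
    1 - 6 * (((k : ℝ) - i) / n) * (1 - ((k : ℝ) - i) / n) := by
  have hn0 : (n : ℝ) ≠ 0 := by exact_mod_cast hn.ne'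
  have g1 : ∀ i : ℕ, i ≤ n → ∑ u ∈ range n, ((if i ≤ u then 1 else 0) - (u : ℝ) / n) =
      (n - i) - (n * (n - 1) / 2) / n := by
    intro i hi
    rw [sum_sub_distrib, sum_ge hi (fun _ => 1), ← sum_div, sum_id]
    simp
  have g2 : ∑ u ∈ range n, ((if i ≤ u then 1 else 0) - (u : ℝ) / n) * ((if k ≤ u then 1 else 0) - (u : ℝ) / n) =
      (n - k) - (n * (n - 1) / 2 - i * (i - 1) / 2) / n - (n * (n - 1) / 2 - k * (k - 1) / 2) / n +
        ((n - 1) * n * (2 * n - 1) / 6) / n ^ 2 := by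
    have e : ∀ u ∈ range n, ((if i ≤ u then 1 else 0) - (u : ℝ) / n) * ((if k ≤ u then 1 else 0) - (u : ℝ) / n) =
        (if k ≤ u then 1 else 0) - (if i ≤ u then (u : ℝ) else 0) / n - (if k ≤ u then (u : ℝ) else 0) / n +
          (u : ℝ) ^ 2 / n ^ 2 := by
      intro u _
      by_cases h1 : i ≤ u
      · by_cases h2 : k ≤ u
        · rw [if_pos h1, if_pos h2, if_pos h1, if_pos h2]; field_simp; ring
        · rw [if_pos h1, if_neg h2, if_pos h1, if_neg h2]; field_simp; ring
      · rw [if_neg h1, if_neg (by omega), if_neg h1, if_neg (by omega)]; field_simp; ring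
    rw [sum_congr rfl e, sum_add_distrib, sum_sub_distrib, sum_sub_distrib, ← sum_div, ← sum_div, ← sum_div,
      sum_ge hk (fun _ => 1), sum_ge hi (fun u => (u : ℝ)), sum_ge hk (fun u => (u : ℝ)), sum_id, sum_id, sum_id, sum_sq']
    simp
  rw [g1 i hi, g1 k hk, g2]
  field_simp
  ring

/-- the quadratic form of the Bernoulli kernel -/
lemma quad_eq {n : ℕ} (hn : 0 < n) (x : ℕ → ℝ) (K : ℕ → ℝ) (hK : ∀ u, K u = ∑ i ∈ range (u + 1), x i) :
    ∑ i ∈ range (n + 1), ∑ k ∈ range (n + 1), x i * x k *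
      (1 - 6 * (|(i : ℝ) - k| / n) * (1 - |(i : ℝ) - k| / n)) =
    12 * ((1 / n) * ∑ u ∈ range n, (K u - K n * (u / n)) ^ 2 -
      ((1 / n) * ∑ u ∈ range n, (K u - K n * (u / n))) ^ 2) + K n ^ 2 / (n : ℝ) ^ 2 := by
  have hK1 : ∀ u ∈ range n, K u - K n * (u / n) = ∑ i ∈ range (n + 1), x i * ((if i ≤ u then 1 else 0) - (u : ℝ) / n) := by
    intro u hu
    have hun := mem_range.1 hu
    simp_rw [mul_sub]
    rw [sum_sub_distrib, ← sum_mul, ← hK n]
    congr 1
    rw [hK u]
    simp_rw [mul_ite, mul_one, mul_zero]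
    rw [← sum_filter]
    apply sum_congr _ (fun _ _ => rfl)
    ext i
    rw [mem_filter, mem_range, mem_range]
    omega
  have e1 : ∑ u ∈ range n, (K u - K n * (u / n)) ^ 2 = ∑ i ∈ range (n + 1), ∑ k ∈ range (n + 1), x i * x k *
      ∑ u ∈ range n, ((if i ≤ u then 1 else 0) - (u : ℝ) / n) * ((if k ≤ u then 1 else 0) - (u : ℝ) / n) := by
    calc ∑ u ∈ range n, (K u - K n * (u / n)) ^ 2 = ∑ u ∈ range n, ∑ i ∈ range (n + 1), ∑ k ∈ range (n + 1),
        x i * x k * (((if i ≤ u then 1 else 0) - (u : ℝ) / n) * ((if k ≤ u then 1 else 0) - (u : ℝ) / n)) := by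
          apply sum_congr rfl
          intro u hu
          rw [hK1 u hu, sq, sum_mul_sum]
          apply sum_congr rfl
          intro i _
          apply sum_congr rfl
          intro k _
          ring
      _ = _ := by
          rw [sum_comm]
          apply sum_congr rfl
          intro i _
          rw [sum_comm]
          apply sum_congr rfl
          intro k _
          rw [mul_sum]
  have e2 : (∑ u ∈ range n, (K u - K n * (u / n))) ^ 2 = ∑ i ∈ range (n + 1), ∑ k ∈ range (n + 1), x i * x k *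
      ((∑ u ∈ range n, ((if i ≤ u then 1 else 0) - (u : ℝ) / n)) *
        ∑ u ∈ range n, ((if k ≤ u then 1 else 0) - (u : ℝ) / n)) := by
    have h : ∑ u ∈ range n, (K u - K n * (u / n)) =
        ∑ i ∈ range (n + 1), x i * ∑ u ∈ range n, ((if i ≤ u then 1 else 0) - (u : ℝ) / n) := by
      rw [sum_congr rfl hK1, sum_comm]
      apply sum_congr rfl
      intro i _
      rw [mul_sum]
    rw [h, sq, sum_mul_sum]
    apply sum_congr rfl
    intro i _
    apply sum_congr rfl
    intro k _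
    ring
  have e3 : K n ^ 2 = ∑ i ∈ range (n + 1), ∑ k ∈ range (n + 1), x i * x k := by
    rw [hK n, sq, sum_mul_sum]
  rw [mul_pow, e1, e2, e3, mul_sum, mul_sum, ← sum_sub_distrib, mul_sum, sum_div, ← sum_add_distrib]
  apply sum_congr rfl
  intro i hi
  rw [mul_sum, mul_sum, ← sum_sub_distrib, mul_sum, sum_div, ← sum_add_distrib]
  apply sum_congr rfl
  intro k hk
  have hin : i ≤ n := by have := mem_range.1 hi; omega
  have hkn : k ≤ n := by have := mem_range.1 hk; omega
  rcases le_total i k with h | h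
  · have habs : |(i : ℝ) - k| = k - i := by
      rw [abs_sub_comm, abs_of_nonneg (by have : (i : ℝ) ≤ k := by exact_mod_cast h
                                          linarith)]
    rw [habs, ← kernel_eq hn hin hkn h]
    ring
  · have habs : |(i : ℝ) - k| = i - k := by
      rw [abs_of_nonneg (by have : (k : ℝ) ≤ i := by exact_mod_cast h
                            linarith)]
    rw [habs, ← kernel_eq hn hkn hin h]
    have hsw : ∑ u ∈ range n, ((if k ≤ u then 1 else 0) - (u : ℝ) / n) * ((if i ≤ u then 1 else 0) - (u : ℝ) / n) =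
        ∑ u ∈ range n, ((if i ≤ u then 1 else 0) - (u : ℝ) / n) * ((if k ≤ u then 1 else 0) - (u : ℝ) / n) :=
      sum_congr rfl fun u _ => mul_comm _ _
    rw [hsw]
    ring

end Pool.Agent.L7h2.SQ
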