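import Pool.Agent.L7h2.SQ.Ineq

set_option autoImplicit false

/-!
# The inequality for distribution functions
-/

namespace Pool.Agent.L7h2.SQ

open Finset

lemma sum_pairs (h : ℕ) (f : ℕ → ℝ) :
    ∑ u ∈ range (2 * h), f u = ∑ u ∈ range h, (f u + f (2 * h - 1 - u)) := by
  rw [two_mul, sum_range_add, sum_add_distrib]
  congr 1
  rw [← sum_range_reflect]
  apply sum_congr rfl
  intro u hu
  congr 1
  have := mem_range.1 hu
  omega

theorem ineq {h : ℕ} (hh : 0 < h) (F : ℕ → ℝ) (hF0 : ∀ u < 2 * h, 0 ≤ F u) (hF1 : ∀ u < 2 * h, F u ≤ 1) :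
    -9 / 53 - 40 / (2 * h : ℕ) ≤
      12 * ((1 / (2 * h : ℕ)) * ∑ u ∈ range (2 * h), (F u - (u : ℝ) / (2 * h : ℕ)) ^ 2 -
        ((1 / (2 * h : ℕ)) * ∑ u ∈ range (2 * h), (F u - (u : ℝ) / (2 * h : ℕ))) ^ 2) -
      12 / 25 * ((1 / (2 * h : ℕ)) * ∑ u ∈ range (2 * h), F u * F (2 * h - 1 - u)) := by
  have hh0 : (0 : ℝ) < h := by exact_mod_cast hh
  have hh1 : (1 : ℝ) ≤ h := by exact_mod_cast hh
  obtain ⟨n, hn⟩ : ∃ n : ℝ, n = ((2 * h : ℕ) : ℝ) := ⟨_, rfl⟩
  have hnh : n = 2 * h := by rw [hn]; push_cast; ring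
  have hn0 : 0 < n := by rw [hnh]; linarith
  obtain ⟨c, hc⟩ : ∃ c : ℝ, c = (1 / n) * ∑ u ∈ range (2 * h), (F u - (u : ℝ) / n) := ⟨_, rfl⟩
  rw [← hn, ← hc]
  have hS : ∑ u ∈ range (2 * h), (F u - (u : ℝ) / n) = n * c := by
    rw [hc, ← mul_assoc, mul_one_div_cancel hn0.ne', one_mul]
  have hvar : (1 / n) * ∑ u ∈ range (2 * h), (F u - (u : ℝ) / n) ^ 2 - c ^ 2 =
      (1 / n) * ∑ u ∈ range (2 * h), (F u - (u : ℝ) / n - c) ^ 2 := by
    have : ∀ u : ℕ, (F u - (u : ℝ) / n - c) ^ 2 = (F u - (u : ℝ) / n) ^ 2 - 2 * c * (F u - (u : ℝ) / n) + c ^ 2 := by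
      intro u
      ring
    simp_rw [this]
    rw [sum_add_distrib, sum_sub_distrib, ← mul_sum, hS, sum_const, card_range, nsmul_eq_mul, ← hn]
    field_simp
    ring
  rw [hvar]
  -- bounds for `c`
  have hsumy : ∑ u ∈ range (2 * h), ((u : ℝ) / n) = (n - 1) / 2 := by
    rw [← sum_div, sum_id, ← hn]
    field_simp
  have hc1 : c ≤ 1 / 2 + 1 / (2 * n) := by
    have h1 : ∑ u ∈ range (2 * h), F u ≤ n := by
      calc ∑ u ∈ range (2 * h), F u ≤ ∑ _u ∈ range (2 * h), (1 : ℝ) :=
            sum_le_sum fun u hu => hF1 u (mem_range.1 hu)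
        _ = n := by rw [sum_const, card_range, nsmul_eq_mul, mul_one, hn]
    rw [sum_sub_distrib, hsumy] at hS
    have h2 : n * c ≤ n - (n - 1) / 2 := by linarith
    have h3 : n * c ≤ n * (1 / 2 + 1 / (2 * n)) := by
      have : n * (1 / 2 + 1 / (2 * n)) = n - (n - 1) / 2 := by field_simp; ring
      rw [this]
      exact h2
    exact le_of_mul_le_mul_left h3 hn0
  have hc0 : -(1 / 2) ≤ c := by
    have h1 : 0 ≤ ∑ u ∈ range (2 * h), F u := sum_nonneg fun u hu => hF0 u (mem_range.1 hu)
    rw [sum_sub_distrib, hsumy] at hS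
    have h3 : n * (-(1 / 2)) ≤ n * c := by linarith
    exact le_of_mul_le_mul_left h3 hn0
  have hν : 1 / n ≤ 1 / 2 := by
    rw [div_le_iff₀ hn0, hnh]
    linarith
  have hνpos : 0 < 1 / n := by positivity
  have h2n : 1 / (2 * n) = (1 / n) / 2 := by ring
  rw [h2n] at hc1
  -- pairs
  rw [sum_pairs, sum_pairs]
  have key : ∀ u ∈ range h, 12 * (F u - (u : ℝ) / n - c) ^ 2 + 12 * (F (2 * h - 1 - u) - (1 - (u : ℝ) / n) - c) ^ 2 -
      24 / 25 * (F u * F (2 * h - 1 - u)) - 48 * (1 / n) ≤
      12 * ((F u - (u : ℝ) / n - c) ^ 2 + (F (2 * h - 1 - u) - ((2 * h - 1 - u : ℕ) : ℝ) / n - c) ^ 2) -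
      12 / 25 * (F u * F (2 * h - 1 - u) + F (2 * h - 1 - u) * F (2 * h - 1 - (2 * h - 1 - u))) := by
    intro u hu
    have hu' := mem_range.1 hu
    have e1 : 2 * h - 1 - (2 * h - 1 - u) = u := by omega
    have e2 : ((2 * h - 1 - u : ℕ) : ℝ) / n = 1 - (u : ℝ) / n - 1 / n := by
      have : ((2 * h - 1 - u : ℕ) : ℝ) = n - 1 - u := by
        rw [Nat.cast_sub (by omega), Nat.cast_sub (by omega), ← hn]
        simp
      rw [this]
      field_simp
      ring
    rw [e1, e2]
    have b0 := hF0 (2 * h - 1 - u) (by omega)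
    have b1 := hF1 (2 * h - 1 - u) (by omega)
    have y0 : 0 ≤ (u : ℝ) / n := by positivity
    have y1 : (u : ℝ) / n ≤ 1 / 2 := by
      rw [div_le_iff₀ hn0, hnh]
      have : (u : ℝ) ≤ h := by exact_mod_cast hu'.le
      linarith
    obtain ⟨z, hz⟩ : ∃ z, z = F (2 * h - 1 - u) - (1 - (u : ℝ) / n) - c := ⟨_, rfl⟩
    have hz1 : -2 ≤ z := by rw [hz]; linarith
    have e3 : F (2 * h - 1 - u) - (1 - (u : ℝ) / n - 1 / n) - c = z + 1 / n := by rw [hz]; ring
    rw [e3, ← hz]
    nlinarith [mul_nonneg hνpos.le (by linarith : 0 ≤ z + 2)]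
  have hsum := sum_le_sum key
  rw [sum_sub_distrib, sum_const, card_range, nsmul_eq_mul] at hsum
  have hfin : -9 / 53 - 16 * (1 / n) ≤ (1 / n) * ∑ u ∈ range h, (12 * (F u - (u : ℝ) / n - c) ^ 2 +
      12 * (F (2 * h - 1 - u) - (1 - (u : ℝ) / n) - c) ^ 2 - 24 / 25 * (F u * F (2 * h - 1 - u))) := by
    rcases lt_or_ge c 0 with hcneg | hcpos
    · -- `c < 0`
      have h1 : ∀ u ∈ range h, (-1 / 4 : ℝ) ≤ 12 * (F u - (u : ℝ) / n - c) ^ 2 +
          12 * (F (2 * h - 1 - u) - (1 - (u : ℝ) / n) - c) ^ 2 - 24 / 25 * (F u * F (2 * h - 1 - u)) := by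
        intro u _
        refine le_trans ?_ (point2 (F u) (F (2 * h - 1 - u)) ((u : ℝ) / n) c)
        unfold g2
        nlinarith [sq_nonneg ((u : ℝ) / n - 1 / 2), mul_nonneg (by linarith : 0 ≤ -c) (by linarith : 0 ≤ 1 + c)]
      have h2 := sum_le_sum h1
      rw [sum_const, card_range, nsmul_eq_mul] at h2
      have h3 := mul_le_mul_of_nonneg_left h2 hνpos.le
      refine le_trans ?_ h3
      have h4 : 1 / n * ((h : ℝ) * (-1 / 4)) = -1 / 8 := by
        rw [hnh]
        field_simp
        norm_num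
      rw [h4]
      linarith
    · -- `c ≥ 0`
      obtain ⟨U, hU⟩ : ∃ U, U = min h ⌈c * n⌉₊ := ⟨_, rfl⟩
      have hUh : U ≤ h := by rw [hU]; exact min_le_left _ _
      obtain ⟨t, ht⟩ : ∃ t : ℝ, t = (U : ℝ) / (2 * h : ℕ) := ⟨_, rfl⟩
      have htn : t = (U : ℝ) / n := by rw [ht, hn]
      have ht0 : 0 ≤ t := by rw [htn]; positivity
      have ht1 : t ≤ 1 / 2 := by
        rw [htn, div_le_iff₀ hn0, hnh]
        have : (U : ℝ) ≤ h := by exact_mod_cast hUh
        linarith
      have hct : |c - t| ≤ 1 / n := by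
        rcases le_total ⌈c * n⌉₊ h with hle | hle
        · have hUe : U = ⌈c * n⌉₊ := by rw [hU]; exact min_eq_right hle
          have g1 : c * n ≤ U := by rw [hUe]; exact Nat.le_ceil _
          have g2 : (U : ℝ) < c * n + 1 := by rw [hUe]; exact Nat.ceil_lt_add_one (by positivity)
          have g3 : t * n = U := by rw [htn]; field_simp
          rw [abs_le]
          constructor
          · have : -(1 / n) * n ≤ (c - t) * n := by
              rw [sub_mul, g3]
              have : -(1 / n) * n = -1 := by field_simp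
              linarith
            exact le_of_mul_le_mul_right this hn0
          · have : (c - t) * n ≤ (1 / n) * n := by
              rw [sub_mul, g3]
              have : (1 / n) * n = 1 := by field_simp
              linarith
            exact le_of_mul_le_mul_right this hn0
        · have hUe : U = h := by rw [hU]; exact min_eq_left hle
          have g3 : t = 1 / 2 := by
            rw [htn, hUe, hnh]
            field_simp
          have g4 : (h : ℝ) < c * n + 1 := by
            have a1 : (h : ℝ) ≤ ⌈c * n⌉₊ := by exact_mod_cast hle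
            have a2 := Nat.ceil_lt_add_one (show 0 ≤ c * n by positivity)
            linarith
          have g5 : 1 / 2 - 1 / n ≤ c := by
            have : (1 / 2 - 1 / n) * n ≤ c * n := by
              have e : (1 / 2 - 1 / n) * n = h - 1 := by
                rw [hnh]
                field_simp
              rw [e]
              linarith
            exact le_of_mul_le_mul_right this hn0
          rw [g3, abs_le]
          constructor
          · linarith
          · linarith
      have h1 : ∀ u ∈ range h, (if u < U then g1 ((u : ℝ) / n) t else g2 ((u : ℝ) / n) t) - 32 * (1 / n) ≤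
          12 * (F u - (u : ℝ) / n - c) ^ 2 +
          12 * (F (2 * h - 1 - u) - (1 - (u : ℝ) / n) - c) ^ 2 - 24 / 25 * (F u * F (2 * h - 1 - u)) := by
        intro u hu
        have hu' := mem_range.1 hu
        have y0 : 0 ≤ (u : ℝ) / n := by positivity
        have y1 : (u : ℝ) / n ≤ 1 / 2 := by
          rw [div_le_iff₀ hn0, hnh]
          have : (u : ℝ) ≤ h := by exact_mod_cast hu'.le
          linarith
        obtain ⟨k1, k2⟩ := abs_le.1 hct
        obtain ⟨y, hy⟩ : ∃ y, y = (u : ℝ) / n := ⟨_, rfl⟩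
        rw [← hy] at y0 y1
        split_ifs with hif
        · have huc : (u : ℝ) / n ≤ c := by
            rw [div_le_iff₀ hn0]
            have : u < ⌈c * n⌉₊ := lt_of_lt_of_le hif (by rw [hU]; exact min_le_right _ _)
            exact (Nat.lt_ceil.1 this).le
          refine le_trans ?_ (point1 (hF0 u (by omega)) (hF1 _ (by omega)) huc)
          rw [← hy]
          unfold g1
          have e : 12 * (y - c) ^ 2 - 24 / 25 * (y + c) - 12 / 625 -
              (12 * (y - t) ^ 2 - 24 / 25 * (y + t) - 12 / 625 - 32 * (1 / n)) =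
              32 * (1 / n) - (c - t) * (12 * (2 * y - c - t) + 24 / 25) := by ring
          have hb1 : |12 * (2 * y - c - t) + 24 / 25| ≤ 32 := by
            rw [abs_le]
            constructor
            · linarith
            · linarith
          have hb2 : (c - t) * (12 * (2 * y - c - t) + 24 / 25) ≤ (1 / n) * 32 := by
            refine (le_abs_self _).trans ?_
            rw [abs_mul]
            exact mul_le_mul hct hb1 (abs_nonneg _) hνpos.le
          linarith
        · refine le_trans ?_ (point2 (F u) (F (2 * h - 1 - u)) ((u : ℝ) / n) c)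
          rw [← hy]
          unfold g2
          have e : -(1 / 52) * (1 + 48 * (y * (1 - y)) + 52 * (c + c ^ 2)) -
              (-(1 / 52) * (1 + 48 * (y * (1 - y)) + 52 * (t + t ^ 2)) - 32 * (1 / n)) =
              32 * (1 / n) - (c - t) * (1 + c + t) := by ring
          have hb1 : |1 + c + t| ≤ 32 := by
            rw [abs_le]
            constructor
            · linarith
            · linarith
          have hb2 : (c - t) * (1 + c + t) ≤ (1 / n) * 32 := by
            refine (le_abs_self _).trans ?_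
            rw [abs_mul]
            exact mul_le_mul hct hb1 (abs_nonneg _) hνpos.le
          linarith
      have h2 := sum_le_sum h1
      rw [sum_sub_distrib, sum_const, card_range, nsmul_eq_mul] at h2
      have h3 := mul_le_mul_of_nonneg_left h2 hνpos.le
      refine le_trans ?_ h3
      have h4 := sum_g hh hUh ht
      rw [← hn] at h4
      have h5 := Ph_ge ht0
      rw [mul_sub]
      have h6 : 1 / n * ((h : ℝ) * (32 * (1 / n))) = 16 * (1 / n) := by
        rw [hnh]
        field_simp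
        norm_num
      rw [h6]
      linarith
  have h7 : 1 / n * ((h : ℝ) * (48 * (1 / n))) = 24 * (1 / n) := by
    rw [hnh]
    field_simp
    norm_num
  have h8 := mul_le_mul_of_nonneg_left hsum hνpos.le
  rw [mul_sub, h7] at h8
  have h9 : (40 : ℝ) / n = 40 * (1 / n) := by ring
  rw [h9]
  have h10 : 12 * (1 / n * ∑ u ∈ range h, ((F u - (u : ℝ) / n - c) ^ 2 +
      (F (2 * h - 1 - u) - ((2 * h - 1 - u : ℕ) : ℝ) / n - c) ^ 2)) -
      12 / 25 * (1 / n * ∑ u ∈ range h, (F u * F (2 * h - 1 - u) +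
        F (2 * h - 1 - u) * F (2 * h - 1 - (2 * h - 1 - u)))) =
      1 / n * ∑ u ∈ range h, (12 * ((F u - (u : ℝ) / n - c) ^ 2 +
        (F (2 * h - 1 - u) - ((2 * h - 1 - u : ℕ) : ℝ) / n - c) ^ 2) -
      12 / 25 * (F u * F (2 * h - 1 - u) + F (2 * h - 1 - u) * F (2 * h - 1 - (2 * h - 1 - u)))) := by
    rw [sum_sub_distrib, ← mul_sum, ← mul_sum]
    ring
  rw [h10]
  linarith

end Pool.Agent.L7h2.SQ
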