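import Pool.Agent.H820R3.DG.Four
import Pool.Agent.L7h2.SQ.Main

/-!
# The digit sum inequality from the Bernoulli kernel
-/

set_option autoImplicit false
set_option linter.unusedSectionVars false

open Finset

namespace Pool.Agent.L7h2.SQ

open Pool.Agent.H394R2.Ones
open Pool.Agent.H820R3.DG (T_sum_lower' T_abs_sum')

section
variable {b : ℕ} {y : ℝ} (hb : 2 ≤ b) (hy0 : 0 < y) (hy1 : y < 1) (hirr : Irrational y)
  {τ D : ℝ} {n : ℕ} {d : ℕ → ℝ} (hd0 : ∀ m, 0 ≤ d m) (hd : ∀ m, τ - d m ≤ T b y m)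
  (hD : ∑ m ∈ range n, d m ≤ D) {L : ℝ} (hL : 0 ≤ L)

/-- the error term -/
noncomputable def Er (b : ℕ) (y τ D L : ℝ) (n : ℕ) : ℝ :=
  (K b y n : ℝ) ^ 2 - ((b : ℝ) - 1) * τ * n + 2 * ((b : ℝ) - 1) * D + (L * b + 2) * (K b y n + 1)

include hb hy0 hy1 hirr hd0 hd hD hL in
lemma norm_r_sumL (hn : 0 < n) {w : ℂ} (hw1 : ‖w‖ = 1) (hwn : w ^ n = 1) (hw : w ≠ 1)
    (hwd : ‖w - 1‖ * n ≤ L) :
    ‖∑ m ∈ range (n + 1), (r b y m : ℂ) * w ^ m‖ + (K b y n : ℝ) ^ 2 - R b y n ≤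
      Er b y τ D L n := by
  have hbR : (2 : ℝ) ≤ b := by exact_mod_cast hb
  have hn0 : (0 : ℝ) < n := by exact_mod_cast hn
  have hwp : ∀ m, ‖w ^ m‖ = 1 := fun m => by rw [norm_pow, hw1, one_pow]
  have hgeom : ∑ m ∈ range n, w ^ m = 0 := by
    have h := mul_neg_geom_sum w n
    rw [hwn, sub_self] at h
    rcases mul_eq_zero.mp h with h | h
    · exact absurd (by linear_combination -h) hw
    · exact h
  have hA : ∑ m ∈ range n, (T b y m : ℂ) * w ^ m
      = ∑ m ∈ range n, ((T b y m - τ : ℝ) : ℂ) * w ^ m := by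
    have h1 : ∑ m ∈ range n, ((T b y m - τ : ℝ) : ℂ) * w ^ m
        = ∑ m ∈ range n, (T b y m : ℂ) * w ^ m - τ * ∑ m ∈ range n, w ^ m := by
      rw [mul_sum, ← sum_sub_distrib]
      refine sum_congr rfl fun m _ => ?_
      push_cast
      ring
    rw [h1, hgeom, mul_zero, sub_zero]
  have h1 : ‖∑ m ∈ range n, (T b y m : ℂ) * w ^ m‖ ≤ ∑ m ∈ range n, |T b y m - τ| := by
    rw [hA]
    refine (norm_sum_le _ _).trans (sum_le_sum fun m _ => ?_)
    rw [norm_mul, hwp, mul_one, Complex.norm_real, Real.norm_eq_abs]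
  have h2 : ‖∑ m ∈ range n, (T b y m : ℂ) * w ^ m‖ ≤ ∑ m ∈ range n, T b y m := by
    refine (norm_sum_le _ _).trans (sum_le_sum fun m _ => ?_)
    rw [norm_mul, hwp, mul_one, Complex.norm_real, Real.norm_eq_abs,
      abs_of_pos (T_pos hb hy0 hy1 hirr m)]
  have h3 := T_abs_sum' hd0 hd hD
  have h4 := T_sum_le hb hy0 hy1 hirr n
  have h5 := R_eq hb hy0 hy1 n
  have h6 := T_le hb hy0 hy1 (b := b) n
  have h7 := T_pos hb hy0 hy1 hirr n
  have h8 := T_pos hb hy0 hy1 hirr 0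
  have hK : (0 : ℝ) ≤ K b y n := Nat.cast_nonneg _
  have h9 : ‖∑ m ∈ range (n + 1), (r b y m : ℂ) * w ^ m‖ ≤
      ((b : ℝ) - 1) * (∑ m ∈ range n, |T b y m - τ|) + b * ‖w - 1‖ * (∑ m ∈ range n, T b y m)
        + T b y 0 + T b y n := by
    rw [r_sum hb hy0 hy1 w n]
    have e1 : ‖((b : ℂ) - 1)‖ = (b : ℝ) - 1 := by
      have : ((b : ℂ) - 1) = (((b : ℝ) - 1 : ℝ) : ℂ) := by push_cast; ring
      rw [this, Complex.norm_real, Real.norm_eq_abs, abs_of_nonneg (by linarith)]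
    have e2 : ‖(T b y 0 : ℂ)‖ = T b y 0 := by
      rw [Complex.norm_real, Real.norm_eq_abs, abs_of_pos h8]
    have e3 : ‖(T b y n : ℂ) * w ^ n‖ = T b y n := by
      rw [norm_mul, hwp, mul_one, Complex.norm_real, Real.norm_eq_abs, abs_of_pos h7]
    have e4 : ‖((b : ℂ) - 1) * ∑ m ∈ range n, (T b y m : ℂ) * w ^ m‖
        ≤ ((b : ℝ) - 1) * (∑ m ∈ range n, |T b y m - τ|) := by
      rw [norm_mul, e1]
      exact mul_le_mul_of_nonneg_left h1 (by linarith)
    have e5 : ‖(b : ℂ) * (w - 1) * ∑ m ∈ range n, (T b y m : ℂ) * w ^ m‖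
        ≤ b * ‖w - 1‖ * (∑ m ∈ range n, T b y m) := by
      rw [norm_mul, norm_mul, Complex.norm_natCast]
      exact mul_le_mul_of_nonneg_left h2 (by positivity)
    calc _ ≤ ‖((b : ℂ) - 1) * ∑ m ∈ range n, (T b y m : ℂ) * w ^ m
          + (b : ℂ) * (w - 1) * ∑ m ∈ range n, (T b y m : ℂ) * w ^ m + T b y 0‖
          + ‖(T b y n : ℂ) * w ^ n‖ := norm_sub_le _ _
      _ ≤ ‖((b : ℂ) - 1) * ∑ m ∈ range n, (T b y m : ℂ) * w ^ m
          + (b : ℂ) * (w - 1) * ∑ m ∈ range n, (T b y m : ℂ) * w ^ m‖ + ‖(T b y 0 : ℂ)‖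
          + ‖(T b y n : ℂ) * w ^ n‖ := by gcongr; exact norm_add_le _ _
      _ ≤ ‖((b : ℂ) - 1) * ∑ m ∈ range n, (T b y m : ℂ) * w ^ m‖
          + ‖(b : ℂ) * (w - 1) * ∑ m ∈ range n, (T b y m : ℂ) * w ^ m‖ + ‖(T b y 0 : ℂ)‖
          + ‖(T b y n : ℂ) * w ^ n‖ := by gcongr; exact norm_add_le _ _
      _ ≤ _ := by rw [e2, e3]; gcongr
  have h10 : b * ‖w - 1‖ * (∑ m ∈ range n, T b y m) ≤ L * b * (K b y n + 1) := by
    calc b * ‖w - 1‖ * (∑ m ∈ range n, T b y m) ≤ b * ‖w - 1‖ * (n * (K b y n + 1)) :=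
          mul_le_mul_of_nonneg_left h4 (by positivity)
      _ = b * (K b y n + 1) * (‖w - 1‖ * n) := by ring
      _ ≤ b * (K b y n + 1) * L := mul_le_mul_of_nonneg_left hwd (by positivity)
      _ = _ := by ring
  have h11 : ((b : ℝ) - 1) * (∑ m ∈ range n, |T b y m - τ|) ≤
      ((b : ℝ) - 1) * (∑ m ∈ range n, T b y m - τ * n + 2 * D) :=
    mul_le_mul_of_nonneg_left h3 (by linarith)
  unfold Er
  nlinarith

include hb hy0 hy1 hirr hd0 hd hD hL in
lemma sq_sub_R_leL : (K b y n : ℝ) ^ 2 - R b y n ≤ Er b y τ D L n := by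
  have hbR : (2 : ℝ) ≤ b := by exact_mod_cast hb
  have h3 := T_sum_lower' hd hD
  have h5 := R_eq hb hy0 hy1 n
  have h6 := T_le hb hy0 hy1 (b := b) n
  have h8 := T_pos hb hy0 hy1 hirr 0
  have hK : (0 : ℝ) ≤ K b y n := Nat.cast_nonneg _
  have hD0 : 0 ≤ D := (sum_nonneg fun m _ => hd0 m).trans hD
  have h11 := mul_le_mul_of_nonneg_left h3 (by linarith : (0 : ℝ) ≤ (b : ℝ) - 1)
  have h12 : 0 ≤ ((b : ℝ) - 1) * D := mul_nonneg (by linarith) hD0
  have h13 : (K b y n : ℝ) + 1 ≤ (L * b + 2) * (K b y n + 1) := by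
    have : 1 ≤ L * b + 2 := by nlinarith
    nlinarith
  unfold Er
  nlinarith

include hb hy0 hy1 hirr hd0 hd hD hL in
lemma Er_nonneg : 0 ≤ Er b y τ D L n := by
  have h1 := sq_sub_R_leL hb hy0 hy1 hirr hd0 hd hD hL
  have h2 : (R b y n : ℝ) ≤ (K b y n : ℝ) ^ 2 := by
    have := K_sq (b := b) (y := y) n
    have h3 : R b y n ≤ K b y n ^ 2 := by omega
    exact_mod_cast h3
  linarith

include hb hy0 hy1 hirr hd0 hd hD hL in
lemma F_boundL {θ : ℝ} (h0 : 0 < θ) (h1 : θ < 2 * Real.pi)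
    (hθ : ∃ j : ℕ, θ * n = j * (2 * Real.pi)) (h2 : θ * n ≤ L) (hn : 0 < n) :
    ‖F b y n (Complex.exp (Complex.I * (θ : ℂ)))‖ ^ 2 ≤ Er b y τ D L n := by
  set w : ℂ := Complex.exp (Complex.I * (θ : ℂ)) with hw
  have hw1 : ‖w‖ = 1 := by
    rw [hw, mul_comm]
    exact Complex.norm_exp_ofReal_mul_I θ
  have hwn : w ^ n = 1 := by
    obtain ⟨j, hj⟩ := hθ
    rw [hw, ← Complex.exp_nat_mul, Complex.exp_eq_one_iff]
    refine ⟨j, ?_⟩
    have : ((θ * n : ℝ) : ℂ) = ((j * (2 * Real.pi) : ℝ) : ℂ) := by rw [hj]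
    push_cast at this ⊢
    linear_combination Complex.I * this
  have hne : w ≠ 1 := by
    intro h
    rw [hw, Complex.exp_eq_one_iff] at h
    obtain ⟨m, hm⟩ := h
    have h3 : θ = m * (2 * Real.pi) := by
      have h4 : Complex.I * (θ : ℂ) = Complex.I * ((m * (2 * Real.pi) : ℝ) : ℂ) := by
        rw [hm]; push_cast; ring
      have h5 := mul_left_cancel₀ Complex.I_ne_zero h4
      exact_mod_cast h5
    have hpi := Real.pi_pos
    have h6 : (0 : ℝ) < m := by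
      by_contra hcon
      have : (m : ℝ) * (2 * Real.pi) ≤ 0 := by nlinarith
      linarith
    have h7 : (m : ℝ) < 1 := by
      by_contra hcon
      have : 1 * (2 * Real.pi) ≤ (m : ℝ) * (2 * Real.pi) := by nlinarith
      linarith
    have h8 : (0 : ℤ) < m := by exact_mod_cast h6
    have h9 : m < (1 : ℤ) := by exact_mod_cast h7
    omega
  have hdd : ‖w - 1‖ * n ≤ L := by
    have h3 : ‖w - 1‖ ≤ θ := by
      have := Real.norm_exp_I_mul_ofReal_sub_one_le (x := θ)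
      rw [Real.norm_eq_abs, abs_of_pos h0] at this
      exact this
    have h4 : (0 : ℝ) ≤ n := Nat.cast_nonneg _
    nlinarith
  have h3 := norm_r_sumL hb hy0 hy1 hirr hd0 hd hD hL hn hw1 hwn hne hdd
  have h4 := F_sq (b := b) (y := y) n hw1
  have h5 : (K b y n : ℝ) ^ 2 = R b y n + Q b y n := by exact_mod_cast K_sq (b := b) (y := y) n
  linarith

lemma K_eq (u : ℕ) : (K b y u : ℝ) = ∑ i ∈ range (u + 1), (x b y i : ℝ) := by
  unfold K; push_cast; rfl

include hb hy0 hy1 hirr hd0 hd hD in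
/-- the quadratic form of the Bernoulli kernel -/
theorem bern_form {J : ℕ} {δ : ℝ} (hJ : ∀ θ ∈ Set.Icc (0 : ℝ) 1,
    1 - 6 * θ * (1 - θ) ≤ ∑ j ∈ range (J + 1), cf j * Real.cos (2 * Real.pi * j * θ) + δ) (hn : J < n) :
    ∑ i ∈ range (n + 1), ∑ k ∈ range (n + 1), (x b y i : ℝ) * x b y k *
      (1 - 6 * (|(i : ℝ) - k| / n) * (1 - |(i : ℝ) - k| / n)) ≤
      Er b y τ D (2 * Real.pi * J) n + δ * (K b y n : ℝ) ^ 2 := by
  have hn0 : (0 : ℝ) < n := by exact_mod_cast (by omega : 0 < n)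
  have hpi := Real.pi_pos
  have hL : 0 ≤ 2 * Real.pi * J := by positivity
  have hE := Er_nonneg hb hy0 hy1 hirr hd0 hd hD hL
  have hF : ∀ j ∈ range (J + 1), cf j * ∑ i ∈ range (n + 1), ∑ k ∈ range (n + 1), (x b y i : ℝ) * x b y k *
      Real.cos (2 * Real.pi * j / n * i - 2 * Real.pi * j / n * k) ≤ cf j * Er b y τ D (2 * Real.pi * J) n := by
    intro j hj
    have hjJ : j ≤ J := by have := mem_range.1 hj; omega
    rcases Nat.eq_zero_or_pos j with rfl | hj0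
    · simp [cf]
    · apply mul_le_mul_of_nonneg_left _ (cf_nonneg j)
      rw [← norm_exp_sum (range (n + 1)) (fun i => (x b y i : ℝ)) (2 * Real.pi * j / n)]
      have hj0' : (0 : ℝ) < j := by exact_mod_cast hj0
      have h := F_boundL hb hy0 hy1 hirr hd0 hd hD hL (θ := 2 * Real.pi * j / n) (by positivity) (by
        rw [div_lt_iff₀ hn0]
        have : (j : ℝ) < n := by exact_mod_cast (by omega : j < n)
        nlinarith) ⟨j, by field_simp⟩ (by
        rw [div_mul_cancel₀ _ hn0.ne']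
        have : (j : ℝ) ≤ J := by exact_mod_cast hjJ
        nlinarith) (by omega)
      unfold F at h
      simpa using h
  have h1 : ∀ i ∈ range (n + 1), ∀ k ∈ range (n + 1), (x b y i : ℝ) * x b y k *
      (1 - 6 * (|(i : ℝ) - k| / n) * (1 - |(i : ℝ) - k| / n)) ≤
      ∑ j ∈ range (J + 1), cf j * ((x b y i : ℝ) * x b y k *
        Real.cos (2 * Real.pi * j / n * i - 2 * Real.pi * j / n * k)) + δ * ((x b y i : ℝ) * x b y k) := by
    intro i hi k hk
    have hi' : (i : ℝ) ≤ n := by exact_mod_cast (by have := mem_range.1 hi; omega : i ≤ n)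
    have hk' : (k : ℝ) ≤ n := by exact_mod_cast (by have := mem_range.1 hk; omega : k ≤ n)
    have hi0 : (0 : ℝ) ≤ i := Nat.cast_nonneg _
    have hk0 : (0 : ℝ) ≤ k := Nat.cast_nonneg _
    have h2 := hJ (|(i : ℝ) - k| / n) ⟨by positivity, by
      rw [div_le_one hn0, abs_le]
      constructor <;> linarith⟩
    have h3 := mul_le_mul_of_nonneg_left h2 (by positivity : (0 : ℝ) ≤ (x b y i : ℝ) * x b y k)
    refine h3.trans (le_of_eq ?_)
    rw [mul_add, mul_sum]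
    congr 1
    · apply sum_congr rfl
      intro j _
      have : Real.cos (2 * Real.pi * j * (|(i : ℝ) - k| / n)) =
          Real.cos (2 * Real.pi * j / n * i - 2 * Real.pi * j / n * k) := by
        rcases abs_cases ((i : ℝ) - k) with ⟨h, _⟩ | ⟨h, _⟩
        · rw [h]; congr 1; ring
        · rw [h, ← Real.cos_neg]; congr 1; ring
      rw [this]
      ring
    · ring
  calc _ ≤ ∑ i ∈ range (n + 1), ∑ k ∈ range (n + 1), (∑ j ∈ range (J + 1), cf j * ((x b y i : ℝ) * x b y k *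
        Real.cos (2 * Real.pi * j / n * i - 2 * Real.pi * j / n * k)) + δ * ((x b y i : ℝ) * x b y k)) :=
        sum_le_sum fun i hi => sum_le_sum fun k hk => h1 i hi k hk
    _ = ∑ j ∈ range (J + 1), cf j * ∑ i ∈ range (n + 1), ∑ k ∈ range (n + 1), (x b y i : ℝ) * x b y k *
        Real.cos (2 * Real.pi * j / n * i - 2 * Real.pi * j / n * k) + δ * (K b y n : ℝ) ^ 2 := by
        simp_rw [sum_add_distrib]
        congr 1
        · simp_rw [mul_sum]
          calc _ = ∑ i ∈ range (n + 1), ∑ j ∈ range (J + 1), ∑ k ∈ range (n + 1), cf j * ((x b y i : ℝ) * x b y k *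
                Real.cos (2 * Real.pi * j / n * i - 2 * Real.pi * j / n * k)) := by
                apply sum_congr rfl
                intro i _
                rw [sum_comm]
            _ = _ := by rw [sum_comm]
        · rw [K_eq, sq, sum_mul_sum]
          simp_rw [mul_sum]
    _ ≤ ∑ j ∈ range (J + 1), cf j * Er b y τ D (2 * Real.pi * J) n + δ * (K b y n : ℝ) ^ 2 := by
        have := sum_le_sum hF
        linarith
    _ ≤ _ := by
        rw [← sum_mul]
        have := mul_le_mul_of_nonneg_right (cf_sum_le J) hE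
        linarith

/-! ### coverage -/

lemma R_eq_sum (n : ℕ) : R b y n = ∑ i ∈ range (n + 1), x b y i * K b y (n - i) := by
  induction n with
  | zero => simp [R, r, K]
  | succ n ih =>
    have h1 : R b y (n + 1) = R b y n + r b y (n + 1) := by unfold R; rw [sum_range_succ]
    have h2 : r b y (n + 1) = ∑ i ∈ range (n + 2), x b y i * x b y (n + 1 - i) := by
      unfold r
      rw [Nat.sum_antidiagonal_eq_sum_range_succ_mk]
    have h3 : ∀ i ∈ range (n + 1), x b y i * K b y (n + 1 - i) = x b y i * K b y (n - i) +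
        x b y i * x b y (n + 1 - i) := by
      intro i hi
      have hi' : i ≤ n := by have := mem_range.1 hi; omega
      rw [← mul_add]
      congr 1
      rw [Nat.succ_sub hi']
      unfold K
      rw [sum_range_succ]
    rw [h1, ih, h2, sum_range_succ _ (n + 1), sum_range_succ _ (n + 1), sum_congr rfl h3, sum_add_distrib]
    have h4 : K b y (n + 1 - (n + 1)) = x b y (n + 1 - (n + 1)) := by
      rw [Nat.sub_self]; simp [K]
    rw [h4]
    ring

lemma cover_eq (n : ℕ) : ∑ u ∈ range n, K b y u * K b y (n - 1 - u) = ∑ N ∈ range n, R b y N := by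
  induction n with
  | zero => simp
  | succ n ih =>
    rw [sum_range_succ (fun N => R b y N) n, ← ih, sum_range_succ]
    have h1 : ∀ u ∈ range n, K b y u * K b y (n + 1 - 1 - u) = K b y u * K b y (n - 1 - u) +
        K b y u * x b y (n - u) := by
      intro u hu
      have hu' := mem_range.1 hu
      rw [← mul_add]
      congr 1
      have : n + 1 - 1 - u = (n - 1 - u) + 1 := by omega
      rw [this]
      have h2 : n - u = (n - 1 - u) + 1 := by omega
      rw [h2]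
      unfold K
      rw [sum_range_succ]
    rw [sum_congr rfl h1, sum_add_distrib, add_assoc]
    congr 1
    have h3 : R b y n = ∑ u ∈ range n, K b y u * x b y (n - u) + K b y n * K b y (n + 1 - 1 - n) := by
      rw [R_eq_sum, ← sum_range_reflect, sum_range_succ]
      congr 1
      · apply sum_congr rfl
        intro u hu
        have := mem_range.1 hu
        rw [show n + 1 - 1 - u = n - u by omega, show n - (n - u) = u by omega, mul_comm]
      · rw [show n + 1 - 1 - n = 0 by omega, Nat.sub_zero, mul_comm]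
        simp [K]
    rw [h3]

include hb hy0 hy1 hirr hd0 hd hD in
lemma cover_ge : ((b : ℝ) - 1) * τ * (n * (n - 1) / 2) - n * (((b : ℝ) - 1) * D + K b y n + 1) ≤
    ∑ u ∈ range n, (K b y u : ℝ) * K b y (n - 1 - u) := by
  have hbR : (2 : ℝ) ≤ b := by exact_mod_cast hb
  have h1 : ∑ u ∈ range n, (K b y u : ℝ) * K b y (n - 1 - u) = ∑ N ∈ range n, (R b y N : ℝ) := by
    exact_mod_cast cover_eq (b := b) (y := y) n
  rw [h1]
  have h2 : ∀ N ∈ range n, ((b : ℝ) - 1) * τ * N - (((b : ℝ) - 1) * D + K b y n + 1) ≤ (R b y N : ℝ) := by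
    intro N hN
    have hN' := (mem_range.1 hN).le
    rw [R_eq hb hy0 hy1 N]
    have hDN : ∑ m ∈ range N, d m ≤ D :=
      (sum_le_sum_of_subset_of_nonneg (range_mono hN') (fun m _ _ => hd0 m)).trans hD
    have h3 := T_sum_lower' hd hDN
    have h4 := mul_le_mul_of_nonneg_left h3 (by linarith : (0 : ℝ) ≤ (b : ℝ) - 1)
    have h5 := T_le hb hy0 hy1 (b := b) N
    have h6 : (K b y N : ℝ) ≤ K b y n := by exact_mod_cast K_mono hN'
    have h8 := T_pos hb hy0 hy1 hirr 0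
    nlinarith
  have h3 := sum_le_sum h2
  rw [sum_sub_distrib, ← mul_sum, sum_id, sum_const, card_range, nsmul_eq_mul] at h3
  exact h3

include hb hy0 hy1 hirr hd0 hd hD in
/-- the main inequality, `n` even -/
theorem mainB_even {J : ℕ} {δ : ℝ} (hJ : ∀ θ ∈ Set.Icc (0 : ℝ) 1,
    1 - 6 * θ * (1 - θ) ≤ ∑ j ∈ range (J + 1), cf j * Real.cos (2 * Real.pi * j * θ) + δ) (hn : J < n)
    {h : ℕ} (hh : n = 2 * h) (hτ : 0 ≤ τ) :
    31 / 25 * (((b : ℝ) - 1) * τ * n) ≤ (62 / 53 + δ + 41 / n) * (K b y n : ℝ) ^ 2 +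
      (2 * ((b : ℝ) - 1) * D + (2 * Real.pi * J * b + 2) * (K b y n + 1)) +
      12 / 25 * (((b : ℝ) - 1) * D + K b y n + 1 + ((b : ℝ) - 1) * τ) := by
  have hbR : (2 : ℝ) ≤ b := by exact_mod_cast hb
  have hnpos : 0 < n := by omega
  have hn0 : (0 : ℝ) < n := by exact_mod_cast hnpos
  have hn1 : (1 : ℝ) ≤ n := by exact_mod_cast hnpos
  have hD0 : 0 ≤ D := (sum_nonneg fun m _ => hd0 m).trans hD
  have hb1 : (0 : ℝ) ≤ (b : ℝ) - 1 := by linarith
  have hform := bern_form hb hy0 hy1 hirr hd0 hd hD hJ hn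
  rw [quad_eq hnpos (fun i => (x b y i : ℝ)) (fun u => (K b y u : ℝ)) (fun u => K_eq u)] at hform
  have hcov := cover_ge hb hy0 hy1 hirr hd0 hd hD
  obtain ⟨k, hk⟩ : ∃ k : ℝ, k = (K b y n : ℝ) := ⟨_, rfl⟩
  have hk0 : 0 ≤ k := by rw [hk]; exact Nat.cast_nonneg _
  rw [← hk] at hform hcov ⊢
  obtain ⟨P, hP⟩ : ∃ P : ℝ, P = ∑ u ∈ range n, (K b y u : ℝ) * K b y (n - 1 - u) := ⟨_, rfl⟩
  obtain ⟨V, hV⟩ : ∃ V : ℝ, V = 12 * ((1 / n) * ∑ u ∈ range n, ((K b y u : ℝ) - k * (u / n)) ^ 2 -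
      ((1 / n) * ∑ u ∈ range n, ((K b y u : ℝ) - k * (u / n))) ^ 2) := ⟨_, rfl⟩
  rw [← hV] at hform
  rw [← hP] at hcov
  have key : (-9 / 53 - 40 / n) * k ^ 2 ≤ V - 12 / 25 * ((1 / n) * P) := by
    rcases hk0.eq_or_lt with hk00 | hkpos
    · -- all digits vanish
      have hz : ∀ u ∈ range n, (K b y u : ℝ) = 0 := by
        intro u hu
        have h1 : (K b y u : ℝ) ≤ k := by
          rw [hk]; exact_mod_cast K_mono (mem_range.1 hu).le
        have h2 : (0 : ℝ) ≤ K b y u := Nat.cast_nonneg _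
        linarith
      have hP0 : P = 0 := by
        rw [hP]
        apply sum_eq_zero
        intro u hu
        rw [hz u hu, zero_mul]
      have hV0 : V = 0 := by
        rw [hV, ← hk00]
        have e1 : ∑ u ∈ range n, ((K b y u : ℝ) - 0 * (u / n)) ^ 2 = 0 := by
          apply sum_eq_zero
          intro u hu
          rw [hz u hu]; ring
        have e2 : ∑ u ∈ range n, ((K b y u : ℝ) - 0 * (u / n)) = 0 := by
          apply sum_eq_zero
          intro u hu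
          rw [hz u hu]; ring
        rw [e1, e2]
        ring
      rw [hP0, hV0, ← hk00]
      simp
    · have hF0 : ∀ u < 2 * h, 0 ≤ (K b y u : ℝ) / k := fun u _ => by positivity
      have hF1 : ∀ u < 2 * h, (K b y u : ℝ) / k ≤ 1 := by
        intro u hu
        rw [div_le_one hkpos, hk]
        exact_mod_cast K_mono (by omega)
      have h1 := ineq (by omega : 0 < h) (fun u => (K b y u : ℝ) / k) hF0 hF1
      rw [← hh] at h1
      have h2 := mul_le_mul_of_nonneg_right h1 (sq_nonneg k)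
      refine h2.trans (le_of_eq ?_)
      have e1 : ∑ u ∈ range n, ((K b y u : ℝ) / k - (u : ℝ) / n) ^ 2 =
          (1 / k ^ 2) * ∑ u ∈ range n, ((K b y u : ℝ) - k * (u / n)) ^ 2 := by
        rw [mul_sum]
        apply sum_congr rfl
        intro u _
        field_simp
      have e2 : ∑ u ∈ range n, ((K b y u : ℝ) / k - (u : ℝ) / n) =
          (1 / k) * ∑ u ∈ range n, ((K b y u : ℝ) - k * (u / n)) := by
        rw [mul_sum]
        apply sum_congr rfl
        intro u _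
        field_simp
      have e3 : ∑ u ∈ range n, (K b y u : ℝ) / k * ((K b y (n - 1 - u) : ℝ) / k) = (1 / k ^ 2) * P := by
        rw [hP, mul_sum]
        apply sum_congr rfl
        intro u _
        field_simp
      rw [e1, e2, e3, hV]
      field_simp
  have h40 : (0 : ℝ) ≤ k ^ 2 / n := by positivity
  have h1n : k ^ 2 / (n : ℝ) ^ 2 ≤ k ^ 2 / n := by
    apply div_le_div_of_nonneg_left (sq_nonneg k) hn0
    nlinarith
  have hPn : (1 / (n : ℝ)) * P ≥ ((b : ℝ) - 1) * τ * ((n - 1) / 2) - (((b : ℝ) - 1) * D + k + 1) := by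
    have h3 := mul_le_mul_of_nonneg_left hcov (by positivity : (0 : ℝ) ≤ 1 / n)
    refine le_trans (le_of_eq ?_) h3
    field_simp
  have e4 : (-9 / 53 - 40 / (n : ℝ)) * k ^ 2 = -9 / 53 * k ^ 2 - 40 * (k ^ 2 / n) := by ring
  have e5 : (62 / 53 + δ + 41 / (n : ℝ)) * k ^ 2 = 62 / 53 * k ^ 2 + δ * k ^ 2 + 41 * (k ^ 2 / n) := by ring
  rw [e4] at key
  rw [e5]
  unfold Er at hform
  rw [← hk] at hform
  have hk2 : 0 ≤ k ^ 2 / (n : ℝ) ^ 2 := by positivity
  have hbt := mul_nonneg hb1 hτ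
  linarith

end

section
variable {b : ℕ} {y : ℝ}

/-- the main inequality -/
theorem mainB (hb : 2 ≤ b) (hy0 : 0 < y) (hy1 : y < 1) (hirr : Irrational y) {τ : ℝ} (hτ : 0 ≤ τ) {d : ℕ → ℝ}
    (hd0 : ∀ m, 0 ≤ d m) (hd : ∀ m, τ - d m ≤ T b y m) {δ : ℝ} (hδ : 0 < δ) :
    ∃ C' : ℝ, 0 ≤ C' ∧ ∃ n1 : ℕ, ∀ n : ℕ, n1 ≤ n → ∀ D : ℝ, ∑ m ∈ range n, d m ≤ D →
      53 / 50 * (((b : ℝ) - 1) * τ * n) ≤ (1 + δ) * (K b y n : ℝ) ^ 2 + C' * (D + K b y n + 1) := by
  have hbR : (2 : ℝ) ≤ b := by exact_mod_cast hb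
  have hb1 : (0 : ℝ) ≤ (b : ℝ) - 1 := by linarith
  obtain ⟨J, hJ⟩ := bern_trunc (show 0 < δ / 2 by linarith)
  obtain ⟨n2, hn2⟩ := exists_nat_ge (41 / (δ / 2))
  have hpi := Real.pi_pos
  have hL : 0 ≤ 2 * Real.pi * J := by positivity
  have hbt := mul_nonneg hb1 hτ
  refine ⟨3 * ((b : ℝ) - 1) + (2 * Real.pi * J * b + 3) + 3 * (((b : ℝ) - 1) * τ), by positivity,
    max (J + 3) (n2 + 1), fun n hn D hD => ?_⟩
  have hnJ : J + 3 ≤ n := (le_max_left _ _).trans hn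
  have hnn2 : n2 + 1 ≤ n := (le_max_right _ _).trans hn
  -- the even number
  obtain ⟨h, m, hm, hmn, hnm⟩ : ∃ h m : ℕ, m = 2 * h ∧ m ≤ n ∧ n ≤ m + 1 := by
    rcases Nat.even_or_odd' n with ⟨h, h1 | h1⟩
    · exact ⟨h, n, h1, le_rfl, by omega⟩
    · exact ⟨h, 2 * h, rfl, by omega, by omega⟩
  have hDm : ∑ k ∈ range m, d k ≤ D :=
    (sum_le_sum_of_subset_of_nonneg (range_mono hmn) (fun k _ _ => hd0 k)).trans hD
  have hD0 : 0 ≤ D := (sum_nonneg fun m _ => hd0 m).trans hDm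
  have h1 := mainB_even hb hy0 hy1 hirr hd0 hd hDm hJ (by omega) hm hτ
  have hm0 : (0 : ℝ) < m := by exact_mod_cast (by omega : 0 < m)
  have h41 : 41 / (m : ℝ) ≤ δ / 2 := by
    rw [div_le_iff₀ hm0]
    have h2 : (n2 : ℝ) ≤ m := by exact_mod_cast (by omega : n2 ≤ m)
    rw [div_le_iff₀ (by linarith)] at hn2
    nlinarith
  have hKm : (K b y m : ℝ) ≤ K b y n := by exact_mod_cast K_mono hmn
  have hKm0 : (0 : ℝ) ≤ K b y m := Nat.cast_nonneg _
  have hmnR : (n : ℝ) - 1 ≤ m := by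
    have : (n : ℝ) ≤ m + 1 := by exact_mod_cast hnm
    linarith
  obtain ⟨k, hk⟩ : ∃ k : ℝ, k = (K b y n : ℝ) := ⟨_, rfl⟩
  obtain ⟨k', hk'⟩ : ∃ k' : ℝ, k' = (K b y m : ℝ) := ⟨_, rfl⟩
  rw [← hk, ← hk'] at hKm
  rw [← hk'] at hKm0 h1
  rw [← hk]
  have hsq : k' ^ 2 ≤ k ^ 2 := by nlinarith
  have h2 : (62 / 53 + δ / 2 + 41 / (m : ℝ)) * k' ^ 2 ≤ 62 / 53 * ((1 + δ) * k ^ 2) := by
    have h3 : (62 / 53 + δ / 2 + 41 / (m : ℝ)) * k' ^ 2 ≤ (62 / 53 + δ) * k' ^ 2 := by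
      apply mul_le_mul_of_nonneg_right _ (sq_nonneg _)
      linarith
    have h4 : (62 / 53 + δ) * k' ^ 2 ≤ (62 / 53 + δ) * k ^ 2 := mul_le_mul_of_nonneg_left hsq (by linarith)
    have h5 : 0 ≤ δ * k ^ 2 := by positivity
    linarith
  have h3 : ((b : ℝ) - 1) * τ * ((n : ℝ) - 1) ≤ ((b : ℝ) - 1) * τ * m := mul_le_mul_of_nonneg_left hmnR hbt
  have hLb : 0 ≤ 2 * Real.pi * J * b := by positivity
  have h4 : (2 * Real.pi * J * b + 2) * (k' + 1) ≤ (2 * Real.pi * J * b + 2) * (k + 1) :=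
    mul_le_mul_of_nonneg_left (by linarith) (by linarith)
  have hbD : 0 ≤ ((b : ℝ) - 1) * D := mul_nonneg hb1 hD0
  have hk0 : 0 ≤ k := hKm0.trans hKm
  have hE : 0 ≤ (2 * Real.pi * J * b + 2) * (k + 1) := by positivity
  have e1 : (3 * ((b : ℝ) - 1) + (2 * Real.pi * J * b + 3) + 3 * (((b : ℝ) - 1) * τ)) * (D + k + 1) =
      3 * (((b : ℝ) - 1) * D) + (2 * Real.pi * J * b + 2) * (k + 1) + (k + 1) + 3 * (((b : ℝ) - 1) * τ) +
      (3 * ((b : ℝ) - 1) * (k + 1) + (2 * Real.pi * J * b + 3) * D + 3 * (((b : ℝ) - 1) * τ) * (D + k)) := by ring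
  have e2 : 0 ≤ 3 * ((b : ℝ) - 1) * (k + 1) + (2 * Real.pi * J * b + 3) * D + 3 * (((b : ℝ) - 1) * τ) * (D + k) := by
    positivity
  rw [e1]
  linarith

end

end Pool.Agent.L7h2.SQ
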