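import Pool.Agent.H820R3.DG.Quad
import Pool.Agent.L7h2.SQ.Four

/-!
# Digit sums of quadratic irrationals, assembly

`quad_asymp` turns any inequality `c (b - 1) τ n ≤ (1 + o(1)) K(n)^2 + O(D + K + 1)` between the digit sum `K(n)` and
the lower bound `τ` for the tails into the bound `K(n) ≥ (√(c (b - 1) τ) - ε) √n` for quadratic irrationals.
-/

set_option autoImplicit false
set_option linter.unusedSectionVars false

open Finset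

namespace Pool.Agent.L7h2.SQ

open Pool.Agent.H394R2.Ones Pool.Agent.H820R3.DG

/-- the inequality with constant `c` -/
def Input (c : ℝ) : Prop :=
  ∀ (b : ℕ) (y : ℝ), 2 ≤ b → 0 < y → y < 1 → Irrational y → ∀ τ : ℝ, 0 ≤ τ → ∀ d : ℕ → ℝ,
    (∀ m, 0 ≤ d m) → (∀ m, τ - d m ≤ T b y m) → ∀ δ : ℝ, 0 < δ →
    ∃ C' : ℝ, 0 ≤ C' ∧ ∃ n1 : ℕ, ∀ n : ℕ, n1 ≤ n → ∀ D : ℝ, ∑ m ∈ range n, d m ≤ D →
      c * (((b : ℝ) - 1) * τ * n) ≤ (1 + δ) * (K b y n : ℝ) ^ 2 + C' * (D + K b y n + 1)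

lemma input_bern : Input (53 / 50) := by
  intro b y hb hy0 hy1 hirr τ hτ d hd0 hd δ hδ
  exact mainB hb hy0 hy1 hirr hτ hd0 hd hδ

section
variable {b : ℕ} {y : ℝ}

/-- digit sums of quadratic irrationals in `(0, 1)` -/
theorem quad_asymp {c : ℝ} (hc : 0 ≤ c) (H : Input c) (hb : 2 ≤ b) (hy0 : 0 < y) (hy1 : y < 1)
    (hirr : Irrational y) {A B C : ℤ}
    (hA : 0 < A) (hq : (A : ℝ) * y ^ 2 + B * y + C = 0) (ε : ℝ) (hε : 0 < ε) :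
    ∃ n0 : ℕ, ∀ n : ℕ, n0 ≤ n →
      (Real.sqrt (c * (((b : ℝ) - 1) * (Int.gcd b (2 * A) : ℕ) / A)) - ε) * Real.sqrt n ≤ K b y n := by
  have hbR : (2 : ℝ) ≤ b := by exact_mod_cast hb
  have hb1 : (0 : ℝ) ≤ (b : ℝ) - 1 := by linarith
  have hAR : (1 : ℝ) ≤ A := by exact_mod_cast hA
  have halg : IsAlgebraic ℚ y := by
    refine ⟨Polynomial.C (A : ℚ) * Polynomial.X ^ 2 + Polynomial.C (B : ℚ) * Polynomial.X +
      Polynomial.C (C : ℚ), ?_, ?_⟩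
    · intro h
      have h1 := congrArg (fun p => Polynomial.coeff p 2) h
      simp only [Polynomial.coeff_add, Polynomial.coeff_C_mul, Polynomial.coeff_X_pow,
        Polynomial.coeff_X, Polynomial.coeff_C, Polynomial.coeff_zero] at h1
      norm_num at h1
      omega
    · simp only [map_add, map_mul, map_pow, Polynomial.aeval_X, Polynomial.aeval_C]
      simpa using hq
  obtain ⟨g, hg⟩ : ∃ g : ℕ, g = Int.gcd b (2 * A) := ⟨_, rfl⟩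
  obtain ⟨τ, hτ⟩ : ∃ τ : ℝ, τ = (g : ℝ) / A := ⟨_, rfl⟩
  have hτ0 : 0 ≤ τ := by rw [hτ]; positivity
  obtain ⟨κ, hκ⟩ : ∃ κ : ℝ, κ = Real.sqrt (c * (((b : ℝ) - 1) * (g : ℝ) / A)) := ⟨_, rfl⟩
  have hκ0 : 0 ≤ κ := by rw [hκ]; positivity
  have hκ2 : κ ^ 2 = c * (((b : ℝ) - 1) * τ) := by
    rw [hκ, Real.sq_sqrt (by positivity), hτ]
    ring
  rw [← hg, ← hκ]
  rcases le_or_gt κ ε with hκε | hκε
  · refine ⟨0, fun n _ => ?_⟩
    have h1 : (0 : ℝ) ≤ K b y n := Nat.cast_nonneg _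
    have h2 : (κ - ε) * Real.sqrt n ≤ 0 := mul_nonpos_of_nonpos_of_nonneg (by linarith) (Real.sqrt_nonneg _)
    linarith
  have hκpos : 0 < κ := hε.trans hκε
  -- the parameters
  obtain ⟨δ, hδ⟩ : ∃ δ : ℝ, δ = ε * κ / (4 * (κ ^ 2 + 1)) := ⟨_, rfl⟩
  have hδ0 : 0 < δ := by rw [hδ]; positivity
  have hδκ : δ * κ ^ 2 ≤ ε * κ / 4 := by
    have h1 : δ * (κ ^ 2 + 1) = ε * κ / 4 := by rw [hδ]; field_simp
    nlinarith
  have hB0 : 0 ≤ |(B : ℝ)| := abs_nonneg _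
  obtain ⟨C', hC'0, n1, hn1⟩ := H b y hb hy0 hy1 hirr τ hτ0 (fun m => dd b y τ |(B : ℝ)| m)
    (fun m => dd_nonneg hy0 hτ0 hB0 m) (fun m => by
      have h1 := T_lower' hb hy0 hy1 hirr hA hq m
      rw [← hg, ← hτ] at h1
      exact h1) δ hδ0
  obtain ⟨δ', hδ'⟩ : ∃ δ' : ℝ, δ' = min (1 / 4) (ε * κ / (4 * (C' * τ + 1))) := ⟨_, rfl⟩
  have hCτ : 0 ≤ C' * τ := mul_nonneg hC'0 hτ0
  have hδ'0 : 0 < δ' := by rw [hδ']; positivity
  have hδ'1 : δ' ≤ 1 / 4 := by rw [hδ']; exact min_le_left _ _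
  have hδ'2 : C' * τ * δ' ≤ ε * κ / 4 := by
    have h1 : δ' * (4 * (C' * τ + 1)) ≤ ε * κ := by
      rw [← le_div_iff₀ (by positivity), hδ']; exact min_le_right _ _
    nlinarith
  obtain ⟨C1, hC10, hC1⟩ := bad_count hb hy0 hy1 halg hirr |(B : ℝ)| δ' hδ'0 hδ'1
  obtain ⟨C2, hC2⟩ : ∃ C2 : ℝ, C2 = |(B : ℝ)| + 2 * τ + τ * C1 + τ := ⟨_, rfl⟩
  have hC20 : 0 ≤ C2 := by rw [hC2]; positivity
  obtain ⟨C3, hC3⟩ : ∃ C3 : ℝ, C3 = C' * (C2 + 1) := ⟨_, rfl⟩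
  have hC30 : 0 ≤ C3 := by rw [hC3]; positivity
  obtain ⟨n2, hn2⟩ := exists_nat_gt ((2 * C3 * (κ + 1) / (ε * κ)) ^ 2)
  refine ⟨max (max n1 n2) 1, fun n hn => ?_⟩
  have hnn1 : n1 ≤ n := ((le_max_left _ _).trans (le_max_left _ _)).trans hn
  have hnn2 : n2 ≤ n := ((le_max_right _ _).trans (le_max_left _ _)).trans hn
  have hnn3 : 1 ≤ n := (le_max_right _ _).trans hn
  have hK : (0 : ℝ) ≤ K b y n := Nat.cast_nonneg _
  have hn0 : (0 : ℝ) ≤ n := Nat.cast_nonneg _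
  have hD : ∑ m ∈ range n, dd b y τ |(B : ℝ)| m ≤ C2 * (K b y n + 1) + τ * δ' * n := by
    unfold dd
    rw [sum_add_distrib, sum_add_distrib, sum_add_distrib, ← mul_sum, ← mul_sum, ← mul_sum,
      sum_add_distrib]
    have h1 := ep_sum (b := b) hb hy0 hy1 n
    have h2 : (∑ m ∈ range n, (x b y m : ℝ)) ≤ K b y n := by
      unfold K
      exact_mod_cast sum_le_sum_of_subset (range_mono (Nat.le_succ n))
    have h3 : (∑ m ∈ range n, (exc b y m : ℝ)) ≤ K b y n := by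
      exact_mod_cast exc_sum b y n
    have h4 : (∑ m ∈ range n, (if T b y m ≤ |(B : ℝ)| * ep b y m then (1 : ℝ) else 0)) ≤
        C1 * (K b y n + 1) + δ' * n := by
      have h5 := hC1 n
      rw [card_filter] at h5
      push_cast at h5
      exact h5
    have h5 := few_sum 0 n τ hτ0
    rw [Nat.cast_zero, zero_add, mul_one] at h5
    have h6 := mul_le_mul_of_nonneg_left h1 hB0
    have h7 := mul_le_mul_of_nonneg_left (add_le_add h2 h3) hτ0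
    have h8 := mul_le_mul_of_nonneg_left h4 hτ0
    have h9 : 0 ≤ τ * K b y n := mul_nonneg hτ0 hK
    have e : C2 * ((K b y n : ℝ) + 1) = |(B : ℝ)| * (K b y n + 1) + 2 * (τ * K b y n) + 2 * τ +
        τ * (C1 * (K b y n + 1)) + τ * K b y n + τ := by rw [hC2]; ring
    rw [e]
    linarith
  have hmain := hn1 n hnn1 _ hD
  obtain ⟨k, hk⟩ : ∃ k : ℝ, k = (K b y n : ℝ) := ⟨_, rfl⟩
  obtain ⟨s, hs⟩ : ∃ s : ℝ, s = Real.sqrt n := ⟨_, rfl⟩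
  have hs0 : 0 ≤ s := by rw [hs]; exact Real.sqrt_nonneg _
  have hsn : s ^ 2 = n := by rw [hs]; exact Real.sq_sqrt hn0
  have hs1 : 1 ≤ s := by
    rw [hs]
    exact Real.one_le_sqrt.mpr (by exact_mod_cast hnn3)
  rw [← hk] at hmain hK ⊢
  rw [← hs]
  by_contra hcon
  push Not at hcon
  have hk2 : k ^ 2 ≤ (κ - ε) ^ 2 * s ^ 2 := by
    rw [← mul_pow]
    exact pow_le_pow_left₀ hK hcon.le 2
  have hkκ : k ≤ κ * s := by
    have : (κ - ε) * s ≤ κ * s := mul_le_mul_of_nonneg_right (by linarith) hs0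
    linarith
  rw [← hsn] at hmain
  have h1 : c * (((b : ℝ) - 1) * τ * s ^ 2) = κ ^ 2 * s ^ 2 := by rw [hκ2]; ring
  rw [h1] at hmain
  have h2 : C' * (C2 * (k + 1) + τ * δ' * s ^ 2 + k + 1) = C3 * (k + 1) + C' * τ * δ' * s ^ 2 := by
    rw [hC3]; ring
  rw [h2] at hmain
  have h3 : C' * τ * δ' * s ^ 2 ≤ ε * κ / 4 * s ^ 2 := mul_le_mul_of_nonneg_right hδ'2 (sq_nonneg _)
  have h4 : (1 + δ) * k ^ 2 ≤ (κ - ε) ^ 2 * s ^ 2 + ε * κ / 4 * s ^ 2 := by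
    have e1 : (1 + δ) * k ^ 2 ≤ (1 + δ) * ((κ - ε) ^ 2 * s ^ 2) := mul_le_mul_of_nonneg_left hk2 (by linarith)
    have e2 : (κ - ε) ^ 2 ≤ κ ^ 2 := by nlinarith
    have e3 : δ * (κ - ε) ^ 2 ≤ ε * κ / 4 := (mul_le_mul_of_nonneg_left e2 hδ0.le).trans hδκ
    have e4 := mul_le_mul_of_nonneg_right e3 (sq_nonneg s)
    nlinarith
  have h5 : C3 * (k + 1) ≤ C3 * ((κ + 1) * s) := by
    apply mul_le_mul_of_nonneg_left _ hC30
    linarith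
  have h6 : ε * κ / 2 * s ^ 2 ≤ C3 * (κ + 1) * s := by
    have e1 : κ ^ 2 * s ^ 2 - (κ - ε) ^ 2 * s ^ 2 = (ε * κ + ε * (κ - ε)) * s ^ 2 := by ring
    have e2 : 0 ≤ ε * (κ - ε) * s ^ 2 := by
      apply mul_nonneg _ (sq_nonneg _)
      exact mul_nonneg hε.le (by linarith)
    nlinarith
  have h7 : ε * κ / 2 * s ≤ C3 * (κ + 1) := by
    have e1 : ε * κ / 2 * s * s ≤ C3 * (κ + 1) * s := by
      have : ε * κ / 2 * s * s = ε * κ / 2 * s ^ 2 := by ring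
      rw [this]
      exact h6
    exact le_of_mul_le_mul_right e1 (by linarith)
  have h8 : 2 * C3 * (κ + 1) / (ε * κ) < s := by
    rw [hs]
    apply Real.lt_sqrt_of_sq_lt
    have : (n2 : ℝ) ≤ n := by exact_mod_cast hnn2
    linarith
  rw [div_lt_iff₀ (by positivity)] at h8
  nlinarith

end

/-- digit sums of real quadratic irrationals -/
theorem quad_realB {c : ℝ} (hc : 0 ≤ c) (H : Input c) {b : ℕ} (hb : 2 ≤ b) {A B C : ℤ} (hA : 0 < A) {ξ : ℝ}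
    (hirr : Irrational ξ)
    (hq : (A : ℝ) * ξ ^ 2 + B * ξ + C = 0) (ε : ℝ) (hε : 0 < ε) :
    ∃ n0 : ℕ, ∀ n : ℕ, n0 ≤ n →
      (Real.sqrt (c * (((b : ℝ) - 1) * (Int.gcd b (2 * A) : ℕ) / A)) - ε) * Real.sqrt n ≤
        ((∑ k ∈ range n, ⌊ξ * (b : ℝ) ^ (k + 1)⌋ % (b : ℤ) : ℤ) : ℝ) := by
  set y : ℝ := Int.fract ξ with hy
  have hξ : ξ = ⌊ξ⌋ + y := (Int.floor_add_fract ξ).symm
  have hyirr : Irrational y := by
    have : y = ξ - (⌊ξ⌋ : ℤ) := rfl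
    rw [this]
    exact hirr.sub_intCast _
  have hy0 : 0 < y := lt_of_le_of_ne (Int.fract_nonneg ξ) (Ne.symm hyirr.ne_zero)
  have hy1 : y < 1 := Int.fract_lt_one ξ
  have hq' : (A : ℝ) * y ^ 2 + ((B + 2 * A * ⌊ξ⌋ : ℤ) : ℝ) * y +
      ((C + B * ⌊ξ⌋ + A * ⌊ξ⌋ ^ 2 : ℤ) : ℝ) = 0 := by
    have h1 : (A : ℝ) * (⌊ξ⌋ + y) ^ 2 + B * (⌊ξ⌋ + y) + C = 0 := by rw [← hξ]; exact hq
    push_cast
    linarith
  obtain ⟨n0, hn0⟩ := quad_asymp hc H hb hy0 hy1 hyirr hA hq' ε hε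
  refine ⟨n0, fun n hn => (hn0 n hn).trans (le_of_eq ?_)⟩
  have hdig : ∀ k : ℕ, ⌊ξ * (b : ℝ) ^ (k + 1)⌋ % (b : ℤ) = (x b y (k + 1) : ℤ) := by
    intro k
    have h1 : ξ * (b : ℝ) ^ (k + 1) = ((⌊ξ⌋ * (b : ℤ) ^ (k + 1) : ℤ) : ℝ) +
        y * (b : ℝ) ^ (k + 1) := by
      nth_rewrite 1 [hξ]
      push_cast
      ring
    rw [h1, Int.floor_intCast_add]
    unfold x Pool.Agent.H394R2.Ones.B
    push_cast
    rw [Int.natCast_floor_eq_floor (by positivity)]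
    rw [show ⌊ξ⌋ * (b : ℤ) ^ (k + 1) + ⌊y * (b : ℝ) ^ (k + 1)⌋ =
      ⌊y * (b : ℝ) ^ (k + 1)⌋ + (b : ℤ) * (⌊ξ⌋ * (b : ℤ) ^ k) by ring, Int.add_mul_emod_self_left]
  simp only [hdig]
  unfold K
  rw [sum_range_succ']
  rw [x_zero hy0 hy1, add_zero]
  push_cast
  rfl

end Pool.Agent.L7h2.SQ
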