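import Pool.Agent.L7h2.SQ.Bern

set_option autoImplicit false

/-!
# The pointwise inequality and its summation
-/

namespace Pool.Agent.L7h2.SQ

open Finset

/-- the first lower bound -/
noncomputable def g1 (y c : ℝ) : ℝ := 12 * (y - c) ^ 2 - 24 / 25 * (y + c) - 12 / 625

/-- the second lower bound -/
noncomputable def g2 (y c : ℝ) : ℝ := -(1 / 52) * (1 + 48 * (y * (1 - y)) + 52 * (c + c ^ 2))

lemma point1 {A B y c : ℝ} (hA : 0 ≤ A) (hB : B ≤ 1) (hyc : y ≤ c) :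
    g1 y c ≤ 12 * (A - y - c) ^ 2 + 12 * (B - (1 - y) - c) ^ 2 - 24 / 25 * (A * B) := by
  unfold g1
  have e : 12 * (A - y - c) ^ 2 + 12 * (B - (1 - y) - c) ^ 2 - 24 / 25 * (A * B) -
      (12 * (y - c) ^ 2 - 24 / 25 * (y + c) - 12 / 625) =
      12 * (A - y - c - 1 / 25) ^ 2 + 24 / 25 * (A * (1 - B)) + 24 * ((c - y) * (1 - B)) + 12 * (1 - B) ^ 2 := by
    ring
  have h1 : 0 ≤ A * (1 - B) := mul_nonneg hA (by linarith)
  have h2 : 0 ≤ (c - y) * (1 - B) := mul_nonneg (by linarith) (by linarith)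
  nlinarith [sq_nonneg (A - y - c - 1 / 25), sq_nonneg (1 - B)]

lemma point2 (A B y c : ℝ) :
    g2 y c ≤ 12 * (A - y - c) ^ 2 + 12 * (B - (1 - y) - c) ^ 2 - 24 / 25 * (A * B) := by
  unfold g2
  nlinarith [sq_nonneg (A - y - c - B / 25), sq_nonneg (B - (1 - y + c + (y + c) / 25) * (625 / 624))]

/-- the final polynomial -/
noncomputable def Ph (t : ℝ) : ℝ := 61 / 13 * t ^ 3 - 311 / 650 * t ^ 2 - 16249 / 32500 * t - 9 / 104

lemma Ph_ge {t : ℝ} (ht : 0 ≤ t) : -9 / 53 ≤ Ph t := by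
  unfold Ph
  nlinarith [sq_nonneg (t - 451 / 2000), mul_nonneg ht (sq_nonneg (t - 451 / 2000)), sq_nonneg (t - 1 / 4),
    sq_nonneg (t - 1 / 5)]

/-- the sum of the lower bounds -/
lemma sum_g {h U : ℕ} (hh : 0 < h) (hU : U ≤ h) {t : ℝ} (ht : t = (U : ℝ) / (2 * h : ℕ)) :
    Ph t ≤ (1 / (2 * h : ℕ) : ℝ) * ∑ u ∈ range h, (if u < U then g1 ((u : ℝ) / (2 * h : ℕ)) t else g2 ((u : ℝ) / (2 * h : ℕ)) t) := by
  have hh0 : (0 : ℝ) < h := by exact_mod_cast hh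
  obtain ⟨n, hn⟩ : ∃ n : ℝ, n = ((2 * h : ℕ) : ℝ) := ⟨_, rfl⟩
  have hnh : n = 2 * h := by rw [hn]; push_cast; ring
  have hn0 : 0 < n := by rw [hnh]; linarith
  obtain ⟨ν, hν⟩ : ∃ ν : ℝ, ν = 1 / n := ⟨_, rfl⟩
  have hν0 : 0 < ν := by rw [hν]; positivity
  have hnν : n * ν = 1 := by rw [hν]; field_simp
  rw [← hn] at ht ⊢
  have hUt : (U : ℝ) = t * n := by rw [ht]; field_simp
  have ht0 : 0 ≤ t := by rw [ht]; positivity
  have hUh : (U : ℝ) ≤ h := by exact_mod_cast hU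
  have ht1 : t ≤ 1 / 2 := by
    rw [ht, div_le_iff₀ hn0, hnh]
    linarith
  have hν2 : ν ≤ 1 / 2 := by
    rw [hν, div_le_iff₀ hn0, hnh]
    have : (1 : ℝ) ≤ h := by exact_mod_cast hh
    linarith
  have hhn : (h : ℝ) = n / 2 := by rw [hnh]; ring
  -- split
  have e1 : ∑ u ∈ range h, (if u < U then g1 ((u : ℝ) / n) t else g2 ((u : ℝ) / n) t) =
      ∑ u ∈ range U, g1 ((u : ℝ) / n) t + (∑ u ∈ range h, g2 ((u : ℝ) / n) t - ∑ u ∈ range U, g2 ((u : ℝ) / n) t) := by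
    rw [sum_ite, ← sum_sdiff (range_mono hU) (f := fun u : ℕ => g2 ((u : ℝ) / n) t)]
    have a1 : (range h).filter (fun u => u < U) = range U := by
      ext u
      rw [mem_filter, mem_range, mem_range]
      omega
    have a2 : (range h).filter (fun u => ¬ u < U) = range h \ range U := by
      ext u
      rw [mem_filter, mem_sdiff, mem_range, mem_range]
    rw [a1, a2]
    ring
  have s1 : ∀ m : ℕ, ∑ u ∈ range m, ((u : ℝ) / n) = (m : ℝ) * (m - 1) / 2 / n := by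
    intro m
    rw [← sum_div, sum_id]
  have s2 : ∀ m : ℕ, ∑ u ∈ range m, ((u : ℝ) / n) ^ 2 = ((m : ℝ) - 1) * m * (2 * m - 1) / 6 / n ^ 2 := by
    intro m
    simp_rw [div_pow]
    rw [← sum_div, sum_sq']
  have G1 : ∑ u ∈ range U, g1 ((u : ℝ) / n) t = 12 * (((U : ℝ) - 1) * U * (2 * U - 1) / 6 / n ^ 2) -
      24 * t * ((U : ℝ) * (U - 1) / 2 / n) + 12 * t ^ 2 * U - 24 / 25 * ((U : ℝ) * (U - 1) / 2 / n) - 24 / 25 * t * U -
      12 / 625 * U := by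
    rw [← s1 U, ← s2 U]
    have : ∀ u : ℕ, g1 ((u : ℝ) / n) t = 12 * ((u : ℝ) / n) ^ 2 - 24 * t * ((u : ℝ) / n) + 12 * t ^ 2 -
        24 / 25 * ((u : ℝ) / n) - 24 / 25 * t - 12 / 625 := by
      intro u
      unfold g1
      ring
    simp_rw [this]
    simp only [sum_sub_distrib, sum_add_distrib, ← mul_sum, sum_const, card_range, nsmul_eq_mul]
    ring
  have G2 : ∀ m : ℕ, ∑ u ∈ range m, g2 ((u : ℝ) / n) t = -(1 / 52) * (m + 48 * ((m : ℝ) * (m - 1) / 2 / n -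
      ((m : ℝ) - 1) * m * (2 * m - 1) / 6 / n ^ 2) + 52 * (t + t ^ 2) * m) := by
    intro m
    rw [← s1 m, ← s2 m]
    have : ∀ u : ℕ, g2 ((u : ℝ) / n) t = -(1 / 52) * (1 + 48 * (((u : ℝ) / n) - ((u : ℝ) / n) ^ 2) + 52 * (t + t ^ 2)) := by
      intro u
      unfold g2
      ring
    simp_rw [this]
    rw [← mul_sum]
    simp only [sum_sub_distrib, sum_add_distrib, ← mul_sum, sum_const, card_range, nsmul_eq_mul]
    ring
  rw [e1, G1, G2, G2, hhn, hUt]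
  have e2 : (1 / n) * (12 * ((t * n - 1) * (t * n) * (2 * (t * n) - 1) / 6 / n ^ 2) -
      24 * t * ((t * n) * (t * n - 1) / 2 / n) + 12 * t ^ 2 * (t * n) - 24 / 25 * ((t * n) * (t * n - 1) / 2 / n) -
      24 / 25 * t * (t * n) - 12 / 625 * (t * n) +
      (-(1 / 52) * (n / 2 + 48 * ((n / 2) * (n / 2 - 1) / 2 / n - (n / 2 - 1) * (n / 2) * (2 * (n / 2) - 1) / 6 / n ^ 2) +
        52 * (t + t ^ 2) * (n / 2)) -
      -(1 / 52) * (t * n + 48 * ((t * n) * (t * n - 1) / 2 / n - (t * n - 1) * (t * n) * (2 * (t * n) - 1) / 6 / n ^ 2) +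
        52 * (t + t ^ 2) * (t * n)))) =
      Ph t + (6 * t ^ 2 * ν + 2 * t * ν ^ 2 + 12 / 25 * t * ν) +
        12 / 13 * (ν / 8 + ν ^ 2 / 12 - t * (1 - t) * ν / 2 - t * ν ^ 2 / 6) := by
    unfold Ph
    rw [hν]
    field_simp
    ring
  rw [e2]
  have h1 : 0 ≤ 6 * t ^ 2 * ν + 2 * t * ν ^ 2 + 12 / 25 * t * ν := by positivity
  have h2 : 0 ≤ ν / 8 + ν ^ 2 / 12 - t * (1 - t) * ν / 2 - t * ν ^ 2 / 6 := by
    have h3 : 0 ≤ 1 / 8 + ν / 12 - t * (1 - t) / 2 - t * ν / 6 := by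
      nlinarith [sq_nonneg (t - 1 / 2)]
    nlinarith [mul_nonneg hν0.le h3]
  linarith

end Pool.Agent.L7h2.SQ
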